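import Pool.Agent.Lib.MP_640417_ag.Wt.Pair
import Pool.Agent.Lib.MP_640417_ag.Four.MainK

/-!
# Tate classes killed by the skew endomorphisms which commute with an open subgroup
-/

namespace Pool.Agent.Lib.MP_640417_ag.Wt

open Module Polynomial Pool.Agent.Lib.MP_640417_ag.Frob Pool.Agent.Lib.MP_640417_ag.Four

variable {K V : Type} [Field K] [CharZero K] [AddCommGroup V] [Module K V] [FiniteDimensional K V]
  {form : LinearMap.BilinForm K V} {Γ : Type} [Group Γ] [TopologicalSpace Γ] {n : ℕ}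

/-- `x` is a Tate class killed by all skew endomorphisms which commute with an open subgroup. -/
def TateC (form : LinearMap.BilinForm K V) (n : ℕ) (T : Γ →* Module.End K V) (χ : Γ →* Kˣ)
    (i : ℕ) (x : ExteriorAlgebra K (Fin n → V)) : Prop :=
  TateClass (fun γ => (T γ).compLeft (Fin n)) χ i x ∧
    ∀ (U : OpenSubgroup Γ) (S : Module.End K V), Skew form S → (∀ γ ∈ U, S * T γ = T γ * S) →
      Dv n S x = 0

/-- `M` kills all these Tate classes. -/
def KillsC (form : LinearMap.BilinForm K V) (n : ℕ) (T : Γ →* Module.End K V) (χ : Γ →* Kˣ)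
    (M : Module.End K V) : Prop :=
  ∀ (i : ℕ) (x : ExteriorAlgebra K (Fin n → V)), TateC form n T χ i x → Dv n M x = 0

omit [CharZero K] in
lemma KillsC.add {T : Γ →* Module.End K V} {χ : Γ →* Kˣ} {M M' : Module.End K V}
    (h : KillsC form n T χ M) (h' : KillsC form n T χ M') : KillsC form n T χ (M + M') :=
  fun i x hx => by
    rw [Dv_add, LinearMap.add_apply, h i x hx, h' i x hx, add_zero]

omit [CharZero K] in
lemma KillsC.smul {T : Γ →* Module.End K V} {χ : Γ →* Kˣ} {M : Module.End K V}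
    (h : KillsC form n T χ M) (r : K) : KillsC form n T χ (r • M) := fun i x hx => by
  rw [Dv_smul, LinearMap.smul_apply, h i x hx, smul_zero]

omit [CharZero K] in
lemma KillsC.comm {T : Γ →* Module.End K V} {χ : Γ →* Kˣ} {M M' : Module.End K V}
    (h : KillsC form n T χ M) (h' : KillsC form n T χ M') :
    KillsC form n T χ (M * M' - M' * M) :=
  fun i x hx => by
    rw [Dv_comm, LinearMap.sub_apply, Module.End.mul_apply, Module.End.mul_apply, h i x hx,
      h' i x hx, map_zero, map_zero, sub_zero]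

omit [CharZero K] in
lemma KillsC.zero {T : Γ →* Module.End K V} {χ : Γ →* Kˣ} : KillsC form n T χ 0 :=
  fun i x _ => by rw [Dv_zero, LinearMap.zero_apply]

omit [CharZero K] [FiniteDimensional K V] in
/-- Conjugates of skew endomorphisms are skew. -/
lemma skew_conj (T : Γ →* Module.End K V) (χ : Γ →* Kˣ)
    (heq : ∀ γ x y, form (T γ x) (T γ y) = ((χ γ)⁻¹ : Kˣ).val * form x y)
    {S : Module.End K V} (hS : Skew form S) (γ : Γ) : Skew form (T γ * S * T γ⁻¹) := by
  have hTT : ∀ γ, T γ * T γ⁻¹ = 1 := fun γ => by rw [← map_mul, mul_inv_cancel, map_one]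
  intro x y
  have h1 : x = T γ (T γ⁻¹ x) := by
    rw [← Module.End.mul_apply, hTT, Module.End.one_apply]
  have h2 : y = T γ (T γ⁻¹ y) := by
    rw [← Module.End.mul_apply, hTT, Module.End.one_apply]
  have h3 : form ((T γ * S * T γ⁻¹) x) y = ((χ γ)⁻¹ : Kˣ).val * form (S (T γ⁻¹ x)) (T γ⁻¹ y) := by
    rw [← heq, ← h2]
    rfl
  have h4 : form x ((T γ * S * T γ⁻¹) y) = ((χ γ)⁻¹ : Kˣ).val * form (T γ⁻¹ x) (S (T γ⁻¹ y)) := by
    rw [← heq, ← h1]
    rfl
  rw [h3, h4, ← mul_add, hS, mul_zero]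

omit [FiniteDimensional K V] [CharZero K] in
/-- Conjugates commute with an open subgroup. -/
lemma comm_conj [IsTopologicalGroup Γ] (T : Γ →* Module.End K V) {S : Module.End K V}
    (U : OpenSubgroup Γ) (hS : ∀ γ ∈ U, S * T γ = T γ * S) (γ : Γ) :
    ∃ U' : OpenSubgroup Γ, ∀ δ ∈ U', (T γ * S * T γ⁻¹) * T δ = T δ * (T γ * S * T γ⁻¹) := by
  have hcont : Continuous (MulAut.conj γ⁻¹).toMonoidHom := by
    have : Continuous fun δ : Γ => γ⁻¹ * δ * (γ⁻¹)⁻¹ :=
      (continuous_const.mul continuous_id).mul continuous_const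
    exact this
  refine ⟨OpenSubgroup.comap (MulAut.conj γ⁻¹).toMonoidHom hcont U, fun δ hδ => ?_⟩
  have h2 : γ⁻¹ * δ * γ ∈ U := by
    have h1 : γ⁻¹ * δ * (γ⁻¹)⁻¹ ∈ U := OpenSubgroup.mem_comap.mp hδ
    rwa [inv_inv] at h1
  have h3 := hS _ h2
  have e1 : T γ⁻¹ * T δ = T (γ⁻¹ * δ * γ) * T γ⁻¹ := by
    rw [← map_mul, ← map_mul]
    congr 1
    group
  have e2 : T γ * T (γ⁻¹ * δ * γ) = T δ * T γ := by
    rw [← map_mul, ← map_mul]
    congr 1
    group
  calc (T γ * S * T γ⁻¹) * T δ = T γ * S * (T γ⁻¹ * T δ) := by simp only [mul_assoc]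
    _ = T γ * (S * T (γ⁻¹ * δ * γ)) * T γ⁻¹ := by rw [e1]; simp only [mul_assoc]
    _ = (T γ * T (γ⁻¹ * δ * γ)) * S * T γ⁻¹ := by rw [h3]; simp only [mul_assoc]
    _ = T δ * (T γ * S * T γ⁻¹) := by rw [e2]; simp only [mul_assoc]

omit [CharZero K] in
/-- Translates. -/
lemma tateC_translate [IsTopologicalGroup Γ] (T : Γ →* Module.End K V) (χ : Γ →* Kˣ)
    (heq : ∀ γ x y, form (T γ x) (T γ y) = ((χ γ)⁻¹ : Kˣ).val * form x y) (i : ℕ)
    (x : ExteriorAlgebra K (Fin n → V)) (hx : TateC form n T χ i x) (γ : Γ) :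
    TateC form n T χ i (ExteriorAlgebra.map ((T γ).compLeft (Fin n)) x) := by
  refine ⟨tate_translate T χ i x hx.1 γ, ?_⟩
  intro U S hS hc
  have hTT : T γ * T γ⁻¹ = 1 := by rw [← map_mul, mul_inv_cancel, map_one]
  obtain ⟨U', hU'⟩ := comm_conj T U hc γ⁻¹
  have h1 := hx.2 U' _ (skew_conj T χ heq hS γ⁻¹) hU'
  rw [inv_inv] at h1
  rw [← map_Dv (T γ) (T γ⁻¹ * S * T γ) S (by
    rw [← mul_assoc, ← mul_assoc, hTT, one_mul]), h1, map_zero]

omit [CharZero K] in
/-- Conjugation. -/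
lemma KillsC.conj [IsTopologicalGroup Γ] {T : Γ →* Module.End K V} {χ : Γ →* Kˣ}
    (heq : ∀ γ x y, form (T γ x) (T γ y) = ((χ γ)⁻¹ : Kˣ).val * form x y)
    {M : Module.End K V} (h : KillsC form n T χ M) (γ : Γ) :
    KillsC form n T χ (T γ * M * T γ⁻¹) := by
  intro i x hx
  have hTT : T γ * T γ⁻¹ = 1 := by rw [← map_mul, mul_inv_cancel, map_one]
  have hTT' : T γ⁻¹ * T γ = 1 := by rw [← map_mul, inv_mul_cancel, map_one]
  have h1 : x = ExteriorAlgebra.map ((T γ).compLeft (Fin n))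
      (ExteriorAlgebra.map ((T γ⁻¹).compLeft (Fin n)) x) := by
    have e1 : (ExteriorAlgebra.map ((T γ).compLeft (Fin n))).comp
        (ExteriorAlgebra.map ((T γ⁻¹).compLeft (Fin n))) = AlgHom.id K _ := by
      rw [ExteriorAlgebra.map_comp_map]
      have e2 : (T γ).compLeft (Fin n) ∘ₗ (T γ⁻¹).compLeft (Fin n) = LinearMap.id := by
        refine LinearMap.ext fun y => funext fun a => ?_
        exact LinearMap.congr_fun hTT (y a)
      rw [e2, ExteriorAlgebra.map_id]
    exact (congrArg (fun a => a x) e1).symm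
  rw [h1, ← map_Dv (T γ) M (T γ * M * T γ⁻¹) (by rw [mul_assoc, hTT', mul_one]),
    h i _ (tateC_translate T χ heq i x hx γ⁻¹), map_zero]

/-- The skew elements of `R` which kill all Tate classes killed by the center. -/
noncomputable def lieC (form : LinearMap.BilinForm K V) (T : Γ →* Module.End K V) (χ : Γ →* Kˣ)
    (n : ℕ) (R : Subalgebra K (Module.End K V)) : Submodule K (Module.End K V) where
  carrier := {M | M ∈ R ∧ Skew form M ∧ KillsC form n T χ M}
  zero_mem' := ⟨R.zero_mem, fun x y => by simp, KillsC.zero⟩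
  add_mem' := by
    rintro M M' ⟨h1, h2, h3⟩ ⟨h4, h5, h6⟩
    refine ⟨R.add_mem h1 h4, fun x y => ?_, h3.add h6⟩
    rw [LinearMap.add_apply, LinearMap.add_apply, map_add, map_add, LinearMap.add_apply]
    linear_combination h2 x y + h5 x y
  smul_mem' := by
    rintro r M ⟨h1, h2, h3⟩
    refine ⟨R.smul_mem h1 r, fun x y => ?_, h3.smul r⟩
    rw [LinearMap.smul_apply, LinearMap.smul_apply, map_smul, map_smul, LinearMap.smul_apply,
      smul_eq_mul, smul_eq_mul]
    linear_combination r * h2 x y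

lemma lieC_bracket (form : LinearMap.BilinForm K V) (T : Γ →* Module.End K V) (χ : Γ →* Kˣ)
    (n : ℕ) (R : Subalgebra K (Module.End K V)) {M M' : Module.End K V}
    (hM : M ∈ lieC form T χ n R) (hM' : M' ∈ lieC form T χ n R) :
    M * M' - M' * M ∈ lieC form T χ n R := by
  obtain ⟨h1, h2, h3⟩ := hM
  obtain ⟨h4, h5, h6⟩ := hM'
  refine ⟨R.sub_mem (R.mul_mem h1 h4) (R.mul_mem h4 h1), fun x y => ?_, h3.comm h6⟩
  simp only [LinearMap.sub_apply, Module.End.mul_apply, map_sub]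
  linear_combination h2 (M' x) y - h5 x (M y) - h5 (M x) y + h2 x (M' y)

end Pool.Agent.Lib.MP_640417_ag.Wt
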