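import Pool.Agent.Lib.MP_640417_ag.Four.Iso

/-!
# Isolated weights
-/

namespace Pool.Agent.Lib.MP_640417_ag.Wt

open Module TensorProduct Polynomial Pool.Agent.Lib.MP_640417_ag.Frob
  Pool.Agent.Lib.MP_640417_ag.Four

variable {K V : Type} [Field K] [AddCommGroup V] [Module K V]
  {form : LinearMap.BilinForm K V} {I : Type} [Fintype I] [DecidableEq I]

/-- An isolated eigenvalue gives an isolated pair of eigenvectors of a generic cocharacter. -/
theorem exists_pairG {G : Type} [CommGroup G] [CharZero K] (halt : ∀ x, form x x = 0)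
    (hnd : ∀ x, (∀ y, form x y = 0) → x = 0)
    (q : G) (e : Basis I K V) (lam : I → G)
    (hpair : ∀ u v, form (e u) (e v) ≠ 0 → lam u * lam v = q)
    (t : I → K)
    (h2 : ∀ u v, lam u * lam v = q → t u + t v = 0)
    (h4 : ∀ a b u v, t a + t b + t u + t v = 0 →
        ∃ N : ℕ, 0 < N ∧ (lam a * lam b * lam u * lam v) ^ N = (q ^ 2) ^ N)
    (tt : Module.End K V) (htt : ∀ v, tt (e v) = t v • e v)
    (u₀ : I) (hsimple : ∀ v, lam v = lam u₀ → v = u₀)
    (hiso : ∀ a b c, ∀ N : ℕ, 0 < N → (lam u₀ * lam a * lam b * lam c) ^ N = (q ^ 2) ^ N →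
      lam u₀ * lam a = q ∨ lam u₀ * lam b = q ∨ lam u₀ * lam c = q) :
    ∃ e' : V, tt e' = - t u₀ • e' ∧ form (e u₀) e' = 1 ∧
      (∀ y, tt y = t u₀ • y → ∃ k : K, y = k • e u₀) ∧
      (∀ y, tt y = - t u₀ • y → ∃ k : K, y = k • e') ∧
      (∀ ν α β : K, tt.HasEigenvalue ν → tt.HasEigenvalue α → tt.HasEigenvalue β → ν ≠ t u₀ →
        t u₀ - ν = α - β → (α = t u₀ ∧ β = ν) ∨ (α = -ν ∧ β = -t u₀)) ∧
      (∀ ν α β : K, tt.HasEigenvalue ν → tt.HasEigenvalue α → tt.HasEigenvalue β → ν ≠ - t u₀ →
        - t u₀ - ν = α - β → (α = - t u₀ ∧ β = ν) ∨ (α = -ν ∧ β = - - t u₀)) := by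
  have hanti : ∀ x y, form x y = - form y x := by
    intro x y
    have h1 := halt (x + y)
    simp only [map_add, LinearMap.add_apply, halt x, halt y, zero_add, add_zero] at h1
    rw [eq_neg_iff_add_eq_zero, add_comm]
    exact h1
  have hdual : ∀ u, ∃ v, form (e u) (e v) ≠ 0 := by
    intro u
    by_contra hcon
    push Not at hcon
    apply e.ne_zero u
    apply hnd
    intro y
    rw [← e.sum_repr y, map_sum]
    refine Finset.sum_eq_zero fun v _ => ?_
    rw [map_smul, hcon v, smul_zero]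
  choose d hd using hdual
  have hdq : ∀ u, lam u * lam (d u) = q := fun u => hpair u (d u) (hd u)
  have hdt : ∀ u, t (d u) = - t u := fun u => eq_neg_of_add_eq_zero_right (h2 u (d u) (hdq u))
  have hcancel : ∀ v, lam u₀ * lam (d v) = q → v = u₀ := by
    intro v hv
    apply hsimple
    exact mul_right_cancel ((hdq v).trans hv.symm)
  have hskew : Skew form tt := skew_of_basis e t tt htt fun u v h => h2 u v (hpair u v h)
  have hline : ∀ v, t v = t u₀ → v = u₀ := by
    intro v hv
    obtain ⟨N, hN, hrel⟩ := h4 u₀ (d v) u₀ (d v) (by rw [hdt, hv]; ring)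
    rcases hiso _ _ _ N hN hrel with h | h | h
    · exact hcancel v h
    · exfalso
      have h5 : lam (d u₀) = lam u₀ := mul_left_cancel ((hdq u₀).trans h.symm)
      have h6 := hsimple _ h5
      have h7 := hd u₀
      rw [h6] at h7
      exact h7 (halt _)
    · exact hcancel v h
  have hneg : ∀ ν, tt.HasEigenvalue ν → tt.HasEigenvalue (-ν) := by
    intro ν hν
    obtain ⟨v, rfl⟩ := exists_of_hasEigenvalue e t tt htt ν hν
    rw [← hdt]
    exact Module.End.hasEigenvalue_of_hasEigenvector (x := e (d v))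
      ⟨by rw [Module.End.mem_eigenspace_iff]; exact htt _, e.ne_zero _⟩
  have hmain : ∀ ν α β : K, tt.HasEigenvalue ν → tt.HasEigenvalue α → tt.HasEigenvalue β →
      ν ≠ t u₀ → t u₀ - ν = α - β → (α = t u₀ ∧ β = ν) ∨ (α = -ν ∧ β = -t u₀) := by
    intro ν α β hν hα hβ hne heq
    obtain ⟨v, rfl⟩ := exists_of_hasEigenvalue e t tt htt ν hν
    obtain ⟨a, rfl⟩ := exists_of_hasEigenvalue e t tt htt α hα
    obtain ⟨b, rfl⟩ := exists_of_hasEigenvalue e t tt htt β hβ
    obtain ⟨N, hN, hrel⟩ := h4 u₀ (d v) b (d a) (by rw [hdt, hdt]; linear_combination heq)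
    rcases hiso _ _ _ N hN hrel with h | h | h
    · exact absurd (by rw [hcancel v h]) hne
    · right
      have h5 := h2 _ _ h
      have h6 : t b = - t u₀ := eq_neg_of_add_eq_zero_right h5
      refine ⟨?_, h6⟩
      rw [h6] at heq
      linear_combination -heq
    · left
      have h5 : t a = t u₀ := by rw [hcancel a h]
      refine ⟨h5, ?_⟩
      rw [h5] at heq
      linear_combination heq
  set k₀ : K := form (e u₀) (e (d u₀)) with hk₀
  have hk₀0 : k₀ ≠ 0 := hd u₀
  refine ⟨k₀⁻¹ • e (d u₀), ?_, ?_, ?_, ?_, hmain, ?_⟩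
  · rw [map_smul, htt, hdt, smul_comm]
  · rw [map_smul, smul_eq_mul, ← hk₀, inv_mul_cancel₀ hk₀0]
  · intro y hy
    refine ⟨e.repr y u₀, ?_⟩
    conv_lhs => rw [← e.sum_repr y]
    rw [Finset.sum_eq_single u₀]
    · intro v _ hv
      by_contra hcon
      have h5 : e.repr y v ≠ 0 := by
        intro h6
        apply hcon
        rw [h6, zero_smul]
      exact hv (hline v (repr_eigen e t tt htt y _ hy v h5))
    · intro h; exact absurd (Finset.mem_univ _) h
  · intro y hy
    refine ⟨form (e u₀) y, ?_⟩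
    set e' := k₀⁻¹ • e (d u₀) with he'
    have h5 : form (e u₀) e' = 1 := by
      rw [he', map_smul, smul_eq_mul, ← hk₀, inv_mul_cancel₀ hk₀0]
    have h6 : tt e' = - t u₀ • e' := by
      rw [he', map_smul, htt, hdt, smul_comm]
    rw [← sub_eq_zero]
    set z := y - form (e u₀) y • e' with hz
    have h7 : tt z = - t u₀ • z := by
      rw [hz, map_sub, map_smul, hy, h6, smul_sub, smul_comm]
    have h8 : form (e u₀) z = 0 := by
      rw [hz, map_sub, map_smul, h5, smul_eq_mul, mul_one, sub_self]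
    have h9 : ∀ s, form (e s) z = 0 := by
      intro s
      by_cases hs : s = u₀
      · rw [hs, h8]
      · have h10 := hskew (e s) z
        rw [htt, h7, map_smul, LinearMap.smul_apply, map_smul, smul_eq_mul, smul_eq_mul,
          ← add_mul] at h10
        refine (mul_eq_zero.mp h10).resolve_left ?_
        intro h11
        apply hs
        apply hline
        linear_combination h11
    apply hnd
    intro x
    rw [hanti, ← e.sum_repr x, map_sum, LinearMap.sum_apply, neg_eq_zero]
    refine Finset.sum_eq_zero fun s _ => ?_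
    rw [map_smul, LinearMap.smul_apply, h9, smul_zero]
  · intro ν α β hν hα hβ hne heq
    rcases hmain (-ν) (-α) (-β) (hneg ν hν) (hneg α hα) (hneg β hβ) (by
      intro h
      apply hne
      rw [← h, neg_neg]) (by linear_combination -heq) with ⟨h5, h6⟩ | ⟨h5, h6⟩
    · left
      exact ⟨by rw [← h5, neg_neg], neg_injective h6⟩
    · right
      exact ⟨by linear_combination -h5, by linear_combination -h6⟩

end Pool.Agent.Lib.MP_640417_ag.Wt
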